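import Pool.Agent.TH279.MZ.Defs

set_option autoImplicit false

open Set Filter Metric MeasureTheory
open Pool.Agent.TH279.MZ

namespace Pool.Agent.TH412.J1687

theorem continuous_vv (j : ℕ) : Continuous (fun p : ℂ × ℂ × ℂ => vv p.1 p.2.1 j) := by
  induction j with
  | zero => simp only [vv_zero]; fun_prop
  | succ j ih =>
    simp only [vv_succ]
    exact (ih.pow 2).add continuous_fst

theorem continuous_EE (L k : ℕ) : Continuous (fun p : ℂ × ℂ × ℂ => EE L k p.1 p.2.1 p.2.2) := by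
  unfold EE
  refine continuous_finsetProd _ (fun j _ => ?_)
  exact (continuous_snd.comp continuous_snd).add (continuous_vv j)

theorem continuous_EE_neg (L k : ℕ) :
    Continuous (fun p : ℂ × ℂ × ℂ => EE L k p.1 p.2.1 (-p.2.2)) := by
  have h : Continuous (fun p : ℂ × ℂ × ℂ => ((p.1, p.2.1, -p.2.2) : ℂ × ℂ × ℂ)) := by fun_prop
  exact (continuous_EE L k).comp h

theorem perturb {L k : ℕ} {c₀ : ℂ} {h₀ : ℂ → ℝ} (hcont : Continuous h₀) (h1 : ∀ z, 1 ≤ h₀ z)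
    {r : ℝ} (hr : 0 < r)
    (hsup : ∀ z : ℂ, ‖z‖ ≤ r + 1 →
      TR c₀ (fun y => ‖EE L k c₀ c₀ y‖ / 4 * h₀ y) z ≤ h₀ z - 1 / 2) :
    ∃ θ : ℝ, 0 < θ ∧ θ < 1 ∧ ∀ δ : ℝ, 0 < δ → ∃ ρ : ℝ, 0 < ρ ∧ ∀ c v : ℂ, ‖c - c₀‖ ≤ ρ →
      ‖v - c₀‖ ≤ ρ → ∀ w : ℂ, ‖w‖ ≤ r → δ ^ 2 ≤ ‖w - c‖ →
        TR c (fun y => ‖f c y - v‖ * ‖EE L k c v y‖ / (4 * ‖y‖ ^ 2) * h₀ y) w ≤ θ * h₀ w := by
  obtain ⟨H0, hH0⟩ := (isCompact_closedBall (0 : ℂ) r).exists_bound_of_continuousOn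
    hcont.continuousOn
  set H : ℝ := max H0 1 with hHdef
  have hH1 : 1 ≤ H := le_max_right _ _
  have hHb : ∀ w : ℂ, ‖w‖ ≤ r → h₀ w ≤ H := by
    intro w hw
    have := hH0 w (by simpa using hw)
    exact (le_abs_self _).trans (this.trans (le_max_left _ _))
  have hH4 : 1 / (4 * H) ≤ 1 / 4 := by
    apply one_div_le_one_div_of_le (by norm_num)
    linarith
  refine ⟨1 - 1 / (4 * H), by linarith, by
    have : 0 < 1 / (4 * H) := by positivity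
    linarith, ?_⟩
  intro δ hδ
  set R0 : ℝ := r + ‖c₀‖ + 2 with hR0
  set K : Set (ℂ × ℂ × ℂ) :=
    closedBall c₀ 1 ×ˢ (closedBall c₀ 1 ×ˢ (closedBall 0 R0 ∩ {y : ℂ | δ ≤ ‖y‖})) with hK
  have hKc : IsCompact K := by
    refine (isCompact_closedBall _ _).prod ((isCompact_closedBall _ _).prod
      ((isCompact_closedBall _ _).inter_right ?_))
    exact isClosed_le continuous_const continuous_norm
  set Φ : ℂ × ℂ × ℂ → ℝ := fun p =>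
    ‖p.2.2 ^ 2 + p.1 - p.2.1‖ * ‖EE L k p.1 p.2.1 p.2.2‖ / (4 * ‖p.2.2‖ ^ 2) * h₀ p.2.2 +
      ‖p.2.2 ^ 2 + p.1 - p.2.1‖ * ‖EE L k p.1 p.2.1 (-p.2.2)‖ / (4 * ‖p.2.2‖ ^ 2) * h₀ (-p.2.2) -
      h₀ (p.2.2 ^ 2 + p.1) with hΦ
  have hne : ∀ p ∈ K, (4 * ‖p.2.2‖ ^ 2 : ℝ) ≠ 0 := by
    intro p hp
    have h3 : δ ≤ ‖p.2.2‖ := hp.2.2.2
    have : 0 < ‖p.2.2‖ := lt_of_lt_of_le hδ h3
    positivity
  have hΦc : ContinuousOn Φ K := by
    have e1 := (continuous_EE L k).norm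
    have e2 := (continuous_EE_neg L k).norm
    have n1 : Continuous (fun p : ℂ × ℂ × ℂ => ‖p.2.2 ^ 2 + p.1 - p.2.1‖) := by fun_prop
    have d1 : Continuous (fun p : ℂ × ℂ × ℂ => (4 * ‖p.2.2‖ ^ 2 : ℝ)) := by fun_prop
    have g1 : Continuous (fun p : ℂ × ℂ × ℂ => h₀ p.2.2) := by fun_prop
    have g2 : Continuous (fun p : ℂ × ℂ × ℂ => h₀ (-p.2.2)) := by fun_prop
    have g3 : Continuous (fun p : ℂ × ℂ × ℂ => h₀ (p.2.2 ^ 2 + p.1)) := by fun_prop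
    exact ((((n1.mul e1).continuousOn.div d1.continuousOn hne).mul g1.continuousOn).add
      (((n1.mul e2).continuousOn.div d1.continuousOn hne).mul g2.continuousOn)).sub
      g3.continuousOn
  have hU := hKc.uniformContinuousOn_of_continuous hΦc
  rw [Metric.uniformContinuousOn_iff] at hU
  obtain ⟨η, hη, hU⟩ := hU (1 / 4) (by norm_num)
  refine ⟨min (η / 2) 1, by positivity, ?_⟩
  intro c v hc hv w hw hwc
  have hc1 : ‖c - c₀‖ ≤ 1 := hc.trans (min_le_right _ _)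
  have hv1 : ‖v - c₀‖ ≤ 1 := hv.trans (min_le_right _ _)
  have hc2 : ‖c - c₀‖ < η := lt_of_le_of_lt (hc.trans (min_le_left _ _)) (by linarith)
  have hv2 : ‖v - c₀‖ < η := lt_of_le_of_lt (hv.trans (min_le_left _ _)) (by linarith)
  set y := sqt (w - c) with hy
  have hy2 : y ^ 2 = w - c := sqt_sq _
  have hyn : ‖y‖ ^ 2 = ‖w - c‖ := by rw [← norm_pow, hy2]
  have hyδ : δ ≤ ‖y‖ := by
    have : δ ^ 2 ≤ ‖y‖ ^ 2 := by rw [hyn]; exact hwc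
    exact le_of_sq_le_sq this (norm_nonneg _) |> fun h => h
  have hyR : ‖y‖ ≤ R0 := by
    have hc3 : ‖c‖ ≤ ‖c₀‖ + 1 := by
      calc ‖c‖ = ‖(c - c₀) + c₀‖ := by ring_nf
        _ ≤ ‖c - c₀‖ + ‖c₀‖ := norm_add_le _ _
        _ ≤ ‖c₀‖ + 1 := by linarith
    have h4 : ‖w - c‖ ≤ r + (‖c₀‖ + 1) := (norm_sub_le _ _).trans (by linarith)
    have h5 : ‖y‖ ^ 2 ≤ r + (‖c₀‖ + 1) := by rw [hyn]; exact h4
    nlinarith [norm_nonneg y, norm_nonneg c₀, sq_nonneg (‖y‖ - 1)]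
  have hp : ((c, v, y) : ℂ × ℂ × ℂ) ∈ K := by
    refine ⟨?_, ?_, ?_, hyδ⟩
    · simpa [dist_eq_norm] using hc1
    · simpa [dist_eq_norm] using hv1
    · simpa using hyR
  have hq : ((c₀, c₀, y) : ℂ × ℂ × ℂ) ∈ K := by
    refine ⟨?_, ?_, ?_, hyδ⟩
    · simp
    · simp
    · simpa using hyR
  have hd : dist ((c, v, y) : ℂ × ℂ × ℂ) (c₀, c₀, y) < η := by
    rw [Prod.dist_eq, Prod.dist_eq]
    simp only [dist_self]
    refine max_lt (by rw [dist_eq_norm]; exact hc2) (max_lt (by rw [dist_eq_norm]; exact hv2) hη)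
  have hdiff := hU _ hp _ hq hd
  rw [Real.dist_eq] at hdiff
  have hdiff' := (abs_lt.mp hdiff).2
  -- at the base point
  have hypos : 0 < ‖y‖ := lt_of_lt_of_le hδ hyδ
  have hbase : Φ (c₀, c₀, y) ≤ -(1 / 2) := by
    set z := y ^ 2 + c₀ with hz
    have hzn : ‖z‖ ≤ r + 1 := by
      have : z = w - (c - c₀) := by rw [hz, hy2]; ring
      rw [this]
      exact (norm_sub_le _ _).trans (by linarith)
    have hs := hsup z hzn
    have hzc : z - c₀ = y ^ 2 := by rw [hz]; ring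
    have hsq : sqt (z - c₀) ^ 2 = y ^ 2 := by rw [sqt_sq, hzc]
    have hg : ∀ t : ℂ, ‖y ^ 2 + c₀ - c₀‖ * ‖EE L k c₀ c₀ t‖ / (4 * ‖y‖ ^ 2) =
        ‖EE L k c₀ c₀ t‖ / 4 := by
      intro t
      rw [add_sub_cancel_right, norm_pow]
      field_simp
    have hΦe : Φ (c₀, c₀, y) = ‖EE L k c₀ c₀ y‖ / 4 * h₀ y +
        ‖EE L k c₀ c₀ (-y)‖ / 4 * h₀ (-y) - h₀ z := by
      simp only [hΦ, hg, hz]
    rw [hΦe]
    unfold TR at hs
    rcases sq_eq_sq_iff_eq_or_eq_neg.mp hsq with h | h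
    · rw [h] at hs
      linarith
    · rw [h, neg_neg] at hs
      linarith
  have hfin : Φ (c, v, y) ≤ -(1 / 4) := by linarith
  have hwy : y ^ 2 + c = w := by rw [hy2]; ring
  have hTR : TR c (fun y => ‖f c y - v‖ * ‖EE L k c v y‖ / (4 * ‖y‖ ^ 2) * h₀ y) w - h₀ w =
      Φ (c, v, y) := by
    simp only [hΦ, TR, f, ← hy, norm_neg, neg_sq, hwy]
  have hw1 : h₀ w ≤ H := hHb w hw
  have : 1 / (4 * H) * h₀ w ≤ 1 / 4 := by
    rw [div_mul_eq_mul_div, one_mul, div_le_div_iff₀ (by positivity) (by norm_num)]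
    linarith
  nlinarith
  
end Pool.Agent.TH412.J1687
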