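import Pool.Agent.TH328.BM.Stm
import Pool.Agent.H590R3.AbNear

set_option autoImplicit false

/-! Job 1725 (BM-3) of helper328's project on MP_cc72b1_an. -/

open Set Filter Metric Topology

namespace Pool.TH412.BM3

open Pool.TH328.BM

/-- commutator estimate in a normed ring -/
theorem comm_est {A : Type*} [NormedRing A] [NormedAlgebra ℝ A] (s si t ti : A) (h1 : s * si = 1) (h2 : si * s = 1)
    (h3 : t * ti = 1) (h4 : ti * t = 1) (n1 : ‖s‖ ≤ 1) (n2 : ‖si‖ ≤ 1) (n3 : ‖t‖ ≤ 1)
    (n4 : ‖ti‖ ≤ 1) (η : ℝ) (hη : ‖(s - 1) * (t - 1)‖ ≤ η) (m : ℕ) (hm : 0 < m) :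
    ‖s * t * si * ti - 1‖ ≤ η + (2 / m + 4 * m * η) := by
  have hη0 : 0 ≤ η := (norm_nonneg _).trans hη
  have hone : ‖(1 : A)‖ ≤ 1 := by
    rw [← h1]
    exact (norm_mul_le _ _).trans (by nlinarith [norm_nonneg s, norm_nonneg si])
  set R : A := s * t * si * ti with hR
  set D : A := (s - 1) * (t - 1) * si * ti with hD
  set N : A := (t - 1) * (si - 1) * ti with hN
  have hsum : R = 1 + (D + N) := by
    have e1 : D + N = s * t * si * ti - (s * si) * ti - t * si * ti + si * ti + t * si * ti -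
        t * ti - si * ti + ti := by
      rw [hD, hN]; noncomm_ring
    rw [e1, h1, h3, hR]
    noncomm_ring
  have hmul : ∀ a b : A, ∀ x y : ℝ, ‖a‖ ≤ x → ‖b‖ ≤ y → ‖a * b‖ ≤ x * y := by
    intro a b x y ha hb
    exact (norm_mul_le _ _).trans (mul_le_mul ha hb (norm_nonneg _) ((norm_nonneg _).trans ha))
  have t2 : ‖t - 1‖ ≤ 2 := (norm_sub_le _ _).trans (by linarith)
  have s2 : ‖si - 1‖ ≤ 2 := (norm_sub_le _ _).trans (by linarith)
  have hRn : ‖R‖ ≤ 1 := by
    have := hmul _ _ _ _ (hmul _ _ _ _ (hmul _ _ _ _ n1 n3) n2) n4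
    simpa using this
  have hDn : ‖D‖ ≤ η := by
    have := hmul _ _ _ _ (hmul _ _ _ _ hη n2) n4
    simpa using this
  have hNn : ‖N‖ ≤ 4 := by
    have := hmul _ _ _ _ (hmul _ _ _ _ t2 s2) n4
    linarith
  have hNN : ‖N * N‖ ≤ 4 * η := by
    have e1 : N * N = (t - 1) * (-(si * ((s - 1) * (t - 1)) * ti)) * (si - 1) * ti := by
      have e2 : (si - 1) * ti * (t - 1) = -(si * ((s - 1) * (t - 1)) * ti) := by
        have e3 : (si - 1) * ti * (t - 1) = si * (ti * t) - si * ti - ti * t + ti := by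
          noncomm_ring
        have e4 : -(si * ((s - 1) * (t - 1)) * ti) =
            -((si * s) * (t * ti)) + (si * s) * ti + si * (t * ti) - si * ti := by
          noncomm_ring
        rw [e3, e4, h4, h2, h3]
        noncomm_ring
      rw [← e2, hN]
      noncomm_ring
    rw [e1]
    have n5 : ‖-(si * ((s - 1) * (t - 1)) * ti)‖ ≤ η := by
      rw [norm_neg]
      have := hmul _ _ _ _ (hmul _ _ _ _ n2 hη) n4
      simpa using this
    have := hmul _ _ _ _ (hmul _ _ _ _ (hmul _ _ _ _ t2 n5) s2) n4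
    linarith
  have hpow : ∀ k : ℕ, ‖R ^ k‖ ≤ 1 := by
    intro k
    induction k with
    | zero => simpa using hone
    | succ k ih =>
      rw [pow_succ]
      have := hmul _ _ _ _ ih hRn
      simpa using this
  have hind : ∀ k : ℕ, ‖R ^ k - 1 - (k : ℤ) • N‖ ≤ 4 * (k : ℝ) ^ 2 * η := by
    intro k
    induction k with
    | zero => simp
    | succ k ih =>
      have e1 : R ^ (k + 1) - 1 - ((k + 1 : ℕ) : ℤ) • N =
          (R ^ k - 1 - (k : ℤ) • N) * R + D + (k : ℤ) • (N * D) + (k : ℤ) • (N * N) := by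
        rw [pow_succ]
        have e2 : (R ^ k - 1 - (k : ℤ) • N) * R = R ^ k * R - R - (k : ℤ) • (N * R) := by
          rw [sub_mul, sub_mul, one_mul, smul_mul_assoc]
        rw [e2]
        have e3 : N * R = N + N * D + N * N := by
          rw [hsum]; noncomm_ring
        rw [e3, smul_add, smul_add]
        push_cast
        rw [add_smul, one_smul]
        have : R = 1 + (D + N) := hsum
        generalize (R ^ k * R) = X
        rw [this]
        abel
      rw [e1]
      have n6 : ‖(k : ℤ) • (N * D)‖ ≤ k * (4 * η) := by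
        refine (norm_zsmul_le _ _).trans ?_
        simp only [Int.norm_natCast]
        exact mul_le_mul_of_nonneg_left (hmul _ _ _ _ hNn hDn) (by positivity)
      have n7 : ‖(k : ℤ) • (N * N)‖ ≤ k * (4 * η) := by
        refine (norm_zsmul_le _ _).trans ?_
        simp only [Int.norm_natCast]
        exact mul_le_mul_of_nonneg_left hNN (by positivity)
      have n8 : ‖(R ^ k - 1 - (k : ℤ) • N) * R‖ ≤ 4 * (k : ℝ) ^ 2 * η := by
        have := hmul _ _ _ _ ih hRn
        simpa using this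
      refine (norm_add_le _ _).trans ?_
      have := norm_add_le ((R ^ k - 1 - (k : ℤ) • N) * R + D) ((k : ℤ) • (N * D))
      have := norm_add_le ((R ^ k - 1 - (k : ℤ) • N) * R) D
      push_cast
      nlinarith
  have hm' : (0 : ℝ) < m := by exact_mod_cast hm
  have h5 : (m : ℝ) * ‖N‖ ≤ 2 + 4 * (m : ℝ) ^ 2 * η := by
    have e1 : (m : ℤ) • N = (R ^ m - 1) - (R ^ m - 1 - (m : ℤ) • N) := by abel
    have e2 : ‖(m : ℤ) • N‖ ≤ 2 + 4 * (m : ℝ) ^ 2 * η := by
      rw [e1]
      refine (norm_sub_le _ _).trans (add_le_add ?_ (hind m))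
      exact (norm_sub_le _ _).trans (by linarith [hpow m])
    have e3 : (m : ℤ) • N = (m : ℝ) • N := by
      rw [← Int.cast_smul_eq_zsmul ℝ (m : ℤ) N]
      norm_cast
    rw [e3, norm_smul, Real.norm_of_nonneg hm'.le] at e2
    exact e2
  have h6 : ‖N‖ ≤ 2 / m + 4 * m * η := by
    rw [← mul_le_mul_iff_right₀ hm']
    refine h5.trans (le_of_eq ?_)
    field_simp
  have h7 : R - 1 = D + N := by rw [hsum]; abel
  rw [h7]
  exact (norm_add_le _ _).trans (add_le_add hDn h6)

variable {E : Type} [NormedAddCommGroup E] [NormedSpace ℝ E]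

/-- isometries moving a suitable finite family very little almost fix the image of the unit ball
under a compact operator -/
theorem exists_family (K : E →L[ℝ] E) (hK : IsCompactOperator K) (η : ℝ) (hη : 0 < η) :
    ∃ (ι : Type) (_ : Finite ι) (e : ι → E) (κ : ℝ), 0 < κ ∧ ∀ S : E ≃ₗᵢ[ℝ] E,
      (∀ i, ‖S (e i) - e i‖ ≤ κ) → ∀ x, ‖x‖ ≤ 1 → ‖S (K x) - K x‖ ≤ η := by
  have hc : IsCompact (closure (K '' closedBall (0 : E) 1)) :=
    hK.isCompact_closure_image_closedBall 1
  have htb : TotallyBounded (K '' closedBall (0 : E) 1) := hc.totallyBounded.subset subset_closure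
  rw [Metric.totallyBounded_iff] at htb
  obtain ⟨t, htf, ht⟩ := htb (η / 3) (by positivity)
  refine ⟨t, htf.to_subtype, fun i => i.1, η / 3, by positivity, ?_⟩
  intro S hS x hx
  have h1 : K x ∈ K '' closedBall (0 : E) 1 := ⟨x, by simpa using hx, rfl⟩
  obtain ⟨y, hy, hxy⟩ := Set.mem_iUnion₂.1 (ht h1)
  rw [mem_ball, dist_eq_norm] at hxy
  have h2 : S (K x) - K x = S (K x - y) + (S y - y) - (K x - y) := by
    rw [map_sub]; abel
  rw [h2]
  have h3 := hS ⟨y, hy⟩
  simp only at h3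
  have h4 : ‖S (K x - y)‖ = ‖K x - y‖ := S.norm_map _
  have h5 := norm_sub_le (S (K x - y) + (S y - y)) (K x - y)
  have h6 := norm_add_le (S (K x - y)) (S y - y)
  linarith

/-- a bounded below compact operator exists only in finite dimensions -/
theorem finite_of_compact [CompleteSpace E] (K : E →L[ℝ] E) (hK : IsCompactOperator K) (c : ℝ)
    (hc : 0 < c) (h : ∀ x, c * ‖x‖ ≤ ‖K x‖) : FiniteDimensional ℝ E := by
  have hanti : AntilipschitzWith (Real.toNNReal (1 / c)) K := by
    refine AddMonoidHomClass.antilipschitz_of_bound K (fun x => ?_)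
    have h1 := h x
    rw [Real.coe_toNNReal _ (by positivity)]
    rw [div_mul_eq_mul_div, one_mul, le_div_iff₀ hc]
    linarith
  have hind : IsUniformInducing K := hanti.isUniformInducing K.uniformContinuous
  have hcp : IsCompact (closure (K '' closedBall (0 : E) 1)) :=
    hK.isCompact_closure_image_closedBall 1
  have htb : TotallyBounded (K '' closedBall (0 : E) 1) := hcp.totallyBounded.subset subset_closure
  have h2 : TotallyBounded (closedBall (0 : E) 1) :=
    (totallyBounded_preimage hind htb).subset (Set.subset_preimage_image _ _)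
  have h3 : IsCompact (closedBall (0 : E) 1) :=
    isCompact_iff_totallyBounded_isComplete.2 ⟨h2, isClosed_closedBall.isComplete⟩
  exact FiniteDimensional.of_isCompact_closedBall ℝ zero_lt_one h3

/-- isometries close to `1` in the strong topology do not all commute with `T` -/
theorem exists_not_comm [CompleteSpace E] [TopologicalSpace.SeparableSpace E] (htr : Trans E)
    (hinf : ¬ FiniteDimensional ℝ E) (T : E ≃ₗᵢ[ℝ] E) (hT : ∃ x, T x ≠ x)
    (hK : IsCompactOperator (fun x => T x - x)) {ι : Type} [Finite ι] (e : ι → E) (κ : ℝ)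
    (hκ : 0 < κ) : ∃ S : E ≃ₗᵢ[ℝ] E, (∀ i, ‖S (e i) - e i‖ ≤ κ) ∧ ∃ x, S (T x) ≠ T (S x) := by
  by_contra hcon
  push Not at hcon
  set K : E →L[ℝ] E := (T : E →L[ℝ] E) - ContinuousLinearMap.id ℝ E with hKdef
  have hKx : ∀ x, K x = T x - x := fun x => rfl
  have hKc : IsCompactOperator K := hK
  -- the function is locally constant on the sphere
  set F : sphere (0 : E) 1 → ℝ := fun x => ‖K x‖ with hF
  have hloc : IsLocallyConstant F := by
    rw [IsLocallyConstant.iff_eventually_eq]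
    rintro ⟨x, hx⟩
    have hx1 : ‖x‖ = 1 := by simpa using hx
    obtain ⟨t, ht, h1⟩ := Pool.H590R3.Ab.near_open_sub (E := E) ⊤
      (fun x y hx hy => by
        obtain ⟨U, hU⟩ := htr x y hx hy
        exact ⟨U, Subgroup.mem_top _, hU⟩) e x hx1 hκ
    rw [Metric.eventually_nhds_iff]
    refine ⟨t, ht, ?_⟩
    rintro ⟨y, hy⟩ hxy
    have hy1 : ‖y‖ = 1 := by simpa using hy
    rw [Subtype.dist_eq, dist_eq_norm] at hxy
    simp only at hxy
    have key : ∀ η : ℝ, 0 < η → |‖K y‖ - ‖K x‖| ≤ ‖K‖ * η := by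
      intro η hη
      obtain ⟨S, -, hS1, hS2⟩ := h1 y hy1 hxy.le η hη
      have hc := hcon S hS2 x
      have h3 : ‖K (S x)‖ = ‖K x‖ := by
        rw [hKx, hKx, ← hc, ← map_sub, S.norm_map]
      rw [← h3]
      refine (abs_norm_sub_norm_le _ _).trans ?_
      rw [← map_sub]
      refine (K.le_opNorm _).trans (mul_le_mul_of_nonneg_left ?_ (norm_nonneg _))
      rw [norm_sub_rev]; exact hS1
    have h4 : |‖K y‖ - ‖K x‖| ≤ 0 := by
      refine le_of_forall_pos_le_add (fun δ hδ => ?_)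
      have h5 := key (δ / (‖K‖ + 1)) (by positivity)
      have h6 : ‖K‖ * (δ / (‖K‖ + 1)) ≤ δ := by
        rw [mul_div_assoc', div_le_iff₀ (by positivity)]
        nlinarith [norm_nonneg K]
      linarith
    have h7 := abs_eq_zero.1 (le_antisymm h4 (abs_nonneg _))
    show ‖K y‖ = ‖K x‖
    linarith
  have hrank : 1 < Module.rank ℝ E := by
    have h1 : ¬ Module.rank ℝ E < Cardinal.aleph0 := by
      rwa [Module.rank_lt_aleph0_iff]
    exact lt_of_lt_of_le Cardinal.one_lt_aleph0 (not_lt.1 h1)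
  have hpre : PreconnectedSpace (sphere (0 : E) 1) :=
    Subtype.preconnectedSpace (isPreconnected_sphere hrank 0 1)
  have hconst : ∀ x y : sphere (0 : E) 1, F x = F y := fun x y =>
    hloc.apply_eq_of_isPreconnected isPreconnected_univ (mem_univ _) (mem_univ _)
  obtain ⟨x0, hx0⟩ := hT
  have hx0' : x0 ≠ 0 := by
    rintro rfl
    simp at hx0
  have hx0n : 0 < ‖x0‖ := norm_pos_iff.2 hx0'
  have hunit : ∀ x : E, x ≠ 0 → ‖(‖x‖⁻¹ • x)‖ = 1 := by
    intro x hx
    rw [norm_smul, norm_inv, norm_norm, inv_mul_cancel₀ (norm_ne_zero_iff.2 hx)]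
  set c : ℝ := ‖K (‖x0‖⁻¹ • x0)‖ with hc
  have hcpos : 0 < c := by
    rw [hc, norm_pos_iff, map_smul]
    refine smul_ne_zero (inv_ne_zero hx0n.ne') ?_
    rw [hKx, sub_ne_zero]
    exact hx0
  refine hinf (finite_of_compact K hKc c hcpos (fun x => ?_))
  rcases eq_or_ne x 0 with rfl | hx
  · simp
  have h8 := hconst ⟨‖x0‖⁻¹ • x0, by simpa using hunit x0 hx0'⟩ ⟨‖x‖⁻¹ • x, by simpa using hunit x hx⟩
  simp only [hF] at h8
  rw [← hc, map_smul, norm_smul, norm_inv, norm_norm] at h8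
  rw [h8, mul_comm, ← mul_assoc, mul_inv_cancel₀ (norm_ne_zero_iff.2 hx), one_mul]

theorem exists_seq (E : Type) [NormedAddCommGroup E] [NormedSpace ℝ E] [CompleteSpace E]
    [TopologicalSpace.SeparableSpace E] (htr : Trans E) (hinf : ¬ FiniteDimensional ℝ E)
    (T : E ≃ₗᵢ[ℝ] E) (hT : ∃ x, T x ≠ x) (hK : IsCompactOperator (fun x => T x - x))
    (ε : ℝ) (hε : 0 < ε) :
    ∃ R : E ≃ₗᵢ[ℝ] E, (∃ x, R x ≠ x) ∧ IsCompactOperator (fun x => R x - x) ∧
      ∀ x, ‖R x - x‖ ≤ ε * ‖x‖ := by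
  set K : E →L[ℝ] E := (T : E →L[ℝ] E) - ContinuousLinearMap.id ℝ E with hKdef
  have hKx : ∀ x, K x = T x - x := fun x => rfl
  have hKc : IsCompactOperator K := hK
  obtain ⟨m, hm⟩ := exists_nat_gt (4 / ε)
  have hm0 : (0 : ℝ) < m := lt_trans (by positivity) hm
  have hm1 : 0 < m := by exact_mod_cast hm0
  set η : ℝ := ε / 2 / (1 + 4 * m) with hη
  have hη0 : 0 < η := by positivity
  obtain ⟨ι, hι, e, κ, hκ, hfam⟩ := exists_family K hKc η hη0
  obtain ⟨S, hS1, x1, hx1⟩ := exists_not_comm htr hinf T hT hK e κ hκ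
  have hS2 := hfam S hS1
  set R : E ≃ₗᵢ[ℝ] E := S * T * S⁻¹ * T⁻¹ with hR
  have hRx : ∀ x, R x = S (T (S.symm (T.symm x))) := fun x => rfl
  refine ⟨R, ⟨T (S x1), ?_⟩, ?_, ?_⟩
  · rw [hRx, T.symm_apply_apply, S.symm_apply_apply]
    exact hx1
  · have e1 : (fun x => R x - x) = fun x => S (K (S.symm (T.symm x))) - K (T.symm x) := by
      funext x
      rw [hRx, hKx, hKx, map_sub, S.apply_symm_apply, T.apply_symm_apply]
      abel
    rw [e1]
    have c1 : IsCompactOperator (fun x => S (K (S.symm (T.symm x)))) := by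
      have := (hKc.comp_clm (((T.symm.trans S.symm : E ≃ₗᵢ[ℝ] E) : E →L[ℝ] E))).clm_comp
        (S : E →L[ℝ] E)
      exact this
    have c2 : IsCompactOperator (fun x => K (T.symm x)) :=
      hKc.comp_clm ((T.symm : E ≃ₗᵢ[ℝ] E) : E →L[ℝ] E)
    exact c1.sub c2
  · have hnt : ∀ U : E ≃ₗᵢ[ℝ] E, ‖(U : E →L[ℝ] E)‖ ≤ 1 := by
      intro U
      refine ContinuousLinearMap.opNorm_le_bound _ zero_le_one (fun x => ?_)
      rw [one_mul]
      exact (U.norm_map x).le
    have hn : ‖((S : E →L[ℝ] E) - 1) * ((T : E →L[ℝ] E) - 1)‖ ≤ η := by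
      refine ContinuousLinearMap.opNorm_le_of_unit_norm hη0.le (fun x hx => ?_)
      exact hS2 x hx.le
    have hmain := comm_est (S : E →L[ℝ] E) (S.symm : E →L[ℝ] E) (T : E →L[ℝ] E)
      (T.symm : E →L[ℝ] E) (by ext x; exact S.apply_symm_apply x)
      (by ext x; exact S.symm_apply_apply x) (by ext x; exact T.apply_symm_apply x)
      (by ext x; exact T.symm_apply_apply x) (hnt _) (hnt _) (hnt _) (hnt _) η hn m hm1
    have hle : η + (2 / m + 4 * m * η) ≤ ε := by
      have h1 : η + 4 * m * η = ε / 2 := by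
        rw [hη]; field_simp
      have h2 : 2 / (m : ℝ) ≤ ε / 2 := by
        rw [div_le_div_iff₀ hm0 (by norm_num)]
        rw [div_lt_iff₀ hε] at hm
        linarith
      linarith
    intro x
    have h3 := ((S : E →L[ℝ] E) * (T : E →L[ℝ] E) * (S.symm : E →L[ℝ] E) *
      (T.symm : E →L[ℝ] E) - 1).le_opNorm x
    refine le_trans (le_of_eq ?_) (h3.trans (mul_le_mul_of_nonneg_right (hmain.trans hle)
      (norm_nonneg x)))
    rfl

end Pool.TH412.BM3
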